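import Pool.Agent.H482R3.EA.Stm

set_option autoImplicit false

namespace Pool.Agent.H797R2.EA

open Pool.Agent.H482R3.EA
open NF

theorem gen_att (S : Sys) (h : NF S) (l : S.Ln) (y : S.L l)
    (hy : ∀ (r : S.P) (a : ℤ), S.I r l → y ≠ S.x l r ^ a) : att h l y = .ln h l y := by
  have h1 : y ≠ 1 := by
    obtain ⟨p, hp⟩ := S.Λ0 l
    intro h
    exact hy p 0 hp (by rw [h, zpow_zero])
  have h2 : ¬ ∃ (s : S.P) (c : ℤ), S.I s l ∧ y = S.x l s ^ c := by
    rintro ⟨s, c, hs, hc⟩
    exact hy s c hs hc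
  unfold att
  rw [if_neg h1, dif_neg h2]

theorem gen_attM (hR : S_REP) (S : Sys) (f : ℤ → NF S) (q : S.P) (l : S.Ln) (y : S.L l)
    (hq : S.I q l) (hrep : rep S l q y = y)
    (hy : ∀ (r : S.P) (a b : ℤ), S.I r l → y ≠ S.x l q ^ a * S.x l r ^ b) :
    attM f q l y = .ln (f 0) l y := by
  have h1 : y ≠ 1 := by
    intro h
    exact hy q 0 0 hq (by rw [h, zpow_zero, mul_one])
  have hcf : cf S l q y = 0 := by
    have h2 := (hR S l q hq y).1
    rw [hrep] at h2
    have h3 : S.x l q ^ cf S l q y = 1 := mul_eq_right.1 h2.symm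
    exact S.X0 l q _ hq h3
  have h2 : ¬ ∃ (s : S.P) (b c : ℤ), S.I s l ∧ s ≠ q ∧
      rep S l q y = S.x l q ^ b * S.x l s ^ c := by
    rintro ⟨s, b, c, hs, -, hc⟩
    rw [hrep] at hc
    exact hy s b c hs hc
  have h3 : ¬ rep S l q y = 1 := by rw [hrep]; exact h1
  unfold attM
  simp only
  rw [if_neg h3, dif_neg h2, hcf, hrep]

theorem t_GEN (hR : S_REP) (hU : S_UNI) (hN : S_UPN) (hM : S_UPM) (hAN : S_ACTN) (h0 : S_A0)
    (hP : S_PTN) : S_GEN := by
  intro S C hone hstep h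
  induction h with
  | one => intro _; exact hone
  | pt h p n ih =>
    rintro ⟨hv, hn, hnear⟩
    obtain ⟨l, hl⟩ := S.P0 p
    have h1 := hP S h l p n hv hl hnear
    rw [if_neg hn] at h1
    have h2 := hstep h l (S.x l p ^ n) hv (ih hv) (Or.inl ⟨p, n, hl, hn, hnear, rfl⟩)
    rw [h1] at h2
    exact h2
  | ln h l y ih =>
    rintro ⟨hv, hin, hmeet, hno⟩
    by_cases hm : ∀ q, S.I q l → ¬ Near S q (st h)
    · have hy := hno hm
      have h1 : act h l y = .ln h l y := by
        rw [hAN S h l y hin, hN S h l y hm, gen_att S h l y hy]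
      have h2 := hstep h l y hv (ih hv) (Or.inr (Or.inl ⟨hin, hm, hy⟩))
      rw [h1] at h2
      exact h2
    · push Not at hm
      obtain ⟨q, hq, hnear⟩ := hm
      obtain ⟨hrep, hy⟩ := hmeet q hq hnear
      obtain ⟨m, hm1, hm2⟩ : ∃ m, InD S m (st h) ∧ S.I q m := by
        rcases hst : st h with _ | m' | r
        · rw [hst] at hnear
          exact absurd hnear (by simp [Near])
        · rw [hst] at hnear
          exact ⟨m', rfl, hnear⟩
        · rw [hst] at hnear
          obtain ⟨m, h1, h2⟩ := hnear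
          exact ⟨m, h1, h2⟩
      have h1 : act h l y = .ln h l y := by
        rw [hAN S h l y hin, hM S h l y q m hin hq hnear hm1 hm2,
          gen_attM hR S _ q l y hq hrep hy, zpow_zero, h0 S h m hv]
      have h2 := hstep h l y hv (ih hv) (Or.inr (Or.inr ⟨hin, q, hq, hnear, hy⟩))
      rw [h1] at h2
      exact h2

end Pool.Agent.H797R2.EA
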