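import Pool.Agent.H482R3.EA.Stm

set_option autoImplicit false

namespace Pool.Agent.H797R2.EA

open Pool.Agent.H482R3.EA

variable {V Wt : Type} [DecidableEq V] [DecidableEq Wt] (c : V ⊕ Wt → V ⊕ Wt → ℕ)

theorem dicm_app (hS : S_EV) (g g' : W Wt) :
    ev (gen (cW c)) (inv g ++ g') = (gEl c g)⁻¹ * gEl c g' := by
  obtain ⟨h1, h2, -⟩ := hS Wt (EA (cW c)) inferInstance (gen (cW c))
  rw [h1, h2]
  rfl

theorem dicm_inz' (hE : S_EX) (hS : S_EV) (w : Wt) (u : W Wt) (h : inz c w u) :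
    ev (gen (cW c)) u = gen (cW c) w ^ expo w u := by
  obtain ⟨h1, h2, -⟩ := hS Wt (EA (cW c)) inferInstance (gen (cW c))
  obtain ⟨-, e2, -⟩ := hE Wt inferInstance (cW c) w
  unfold inz Triv at h
  rw [h1, h2, e2, mul_inv_eq_one] at h
  exact h

theorem dicm_inz (hE : S_EX) (hS : S_EV) (hG : S_EXG) (w : Wt) (u : W Wt) (n : ℤ)
    (h : ev (gen (cW c)) u = gen (cW c) w ^ n) : inz c w u := by
  obtain ⟨h1, h2, -⟩ := hS Wt (EA (cW c)) inferInstance (gen (cW c))
  obtain ⟨-, e2, -⟩ := hE Wt inferInstance (cW c) w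
  obtain ⟨g1, g2, g3⟩ := hG V Wt inferInstance c w
  have hn : expo w u = n := by rw [← g1 u, h, g3, if_pos rfl]
  unfold inz Triv
  rw [h1, h2, e2, mul_inv_eq_one, hn, h]

theorem dicm_inzz' (hE : S_EX) (hS : S_EV) (w w' : Wt) (u : W Wt) (h : inzz c w w' u) :
    ev (gen (cW c)) u = gen (cW c) w ^ expo w u * gen (cW c) w' ^ expo w' u := by
  obtain ⟨h1, h2, -⟩ := hS Wt (EA (cW c)) inferInstance (gen (cW c))
  obtain ⟨-, e2, -⟩ := hE Wt inferInstance (cW c) w
  obtain ⟨-, e2', -⟩ := hE Wt inferInstance (cW c) w'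
  unfold inzz Triv at h
  rw [h1, h1, h2, h2, e2, e2', mul_inv_eq_one, inv_mul_eq_iff_eq_mul] at h
  exact h

theorem dicm_inzz (hE : S_EX) (hS : S_EV) (hG : S_EXG) (w w' : Wt) (hw : w' ≠ w) (u : W Wt)
    (i j : ℤ) (h : ev (gen (cW c)) u = gen (cW c) w ^ i * gen (cW c) w' ^ j) :
    inzz c w w' u := by
  obtain ⟨h1, h2, -⟩ := hS Wt (EA (cW c)) inferInstance (gen (cW c))
  obtain ⟨-, e2, -⟩ := hE Wt inferInstance (cW c) w
  obtain ⟨-, e2', -⟩ := hE Wt inferInstance (cW c) w'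
  obtain ⟨g1, g2, g3⟩ := hG V Wt inferInstance c w
  obtain ⟨g1', g2', g3'⟩ := hG V Wt inferInstance c w'
  have hn : expo w u = i := by
    rw [← g1 u, h, g2, g3, g3, if_pos rfl, if_neg hw, add_zero]
  have hn' : expo w' u = j := by
    rw [← g1' u, h, g2', g3', g3', if_pos rfl, if_neg (Ne.symm hw), zero_add]
  unfold inzz Triv
  rw [h1, h1, h2, h2, e2, e2', mul_inv_eq_one, inv_mul_eq_iff_eq_mul, hn, hn', h]

/-- points of the line `(v, w, γ⟨w⟩)` -/
theorem dicm_I (v : V) (w : Wt) (hc : c (.inl v) (.inr w) ≠ 0) (γ : EA (cW c)) (q : PEA c) :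
    IEA c q (Sum.inr ⟨(⟨(v, w), hc⟩ : LIdx c), QuotientGroup.mk γ⟩ : LnEA c) ↔
      q.2 = v ∧ ∃ j : ℤ, q.1 = γ * gen (cW c) w ^ j := by
  show (q.2 = v ∧ (QuotientGroup.mk q.1 :
    EA (cW c) ⧸ Subgroup.zpowers (gen (cW c) w)) = QuotientGroup.mk γ) ↔ _
  rw [and_congr_right_iff]
  intro _
  rw [eq_comm, QuotientGroup.eq]
  rw [Subgroup.mem_zpowers_iff]
  constructor
  · rintro ⟨j, hj⟩
    exact ⟨j, by rw [hj]; group⟩
  · rintro ⟨j, hj⟩
    exact ⟨j, by rw [hj]; group⟩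

theorem dicm_near_pt (h : SysOK c) (q r : PEA c) :
    Near (sysEA c h) q (.pt r) ↔ (q.1 = r.1 ∨ (q.2 = r.2 ∧ ∃ (w : Wt)
      (_ : c (.inl r.2) (.inr w) ≠ 0) (j : ℤ), q.1 = r.1 * gen (cW c) w ^ j)) := by
  constructor
  · rintro ⟨m, hr, hq⟩
    rcases m with a | ⟨⟨⟨v1, w1⟩, hc1⟩, C⟩
    · left
      have h1 : r.1 = a := hr
      have h2 : q.1 = a := hq
      rw [h1, h2]
    · right
      obtain ⟨h1, h2⟩ : r.2 = v1 ∧ (QuotientGroup.mk r.1 :
        EA (cW c) ⧸ Subgroup.zpowers (gen (cW c) w1)) = C := hr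
      subst h2
      have h3 := (dicm_I c v1 w1 hc1 r.1 q).1 hq
      obtain ⟨h4, j, h5⟩ := h3
      subst h1
      exact ⟨h4, w1, hc1, j, h5⟩
  · rintro (h1 | ⟨h1, w1, hc1, j, h2⟩)
    · exact ⟨(Sum.inl r.1 : LnEA c), rfl, h1⟩
    · refine ⟨(Sum.inr ⟨(⟨(r.2, w1), hc1⟩ : LIdx c), QuotientGroup.mk r.1⟩ : LnEA c), ?_, ?_⟩
      · exact (dicm_I c r.2 w1 hc1 r.1 r).2 ⟨rfl, 0, by simp⟩
      · exact (dicm_I c r.2 w1 hc1 r.1 q).2 ⟨h1, j, h2⟩

theorem t_DICM (hE : S_EX) (hS : S_EV) (hG : S_EXG) : S_DICM := by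
  intro V Wt _ _ c h s g v w hc hok hnd
  have h2 : MeetL c g v w s → Near (sysEA c h)
      ((gEl c g * gen (cW c) w ^ expo w (inv g ++ gOf s), v) : PEA c) (stO c h s) := by
    intro hm
    rcases s with _ | (⟨g', v', b', n'⟩ | ⟨g', y'⟩ | ⟨g', v', w', y'⟩)
    · exact absurd hm (by simp [MeetL])
    · show Near (sysEA c h) ((gEl c g * gen (cW c) w ^ expo w (inv g ++ g'), v) : PEA c)
        (.pt ((gEl c g', v') : PEA c))
      rw [dicm_near_pt]
      rcases hm with hm | ⟨hv, w1, hw1, hc1, hm⟩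
      · left
        have e1 := dicm_inz' c hE hS w _ hm
        rw [dicm_app c hS] at e1
        show gEl c g * gen (cW c) w ^ expo w (inv g ++ g') = gEl c g'
        rw [← e1]
        group
      · right
        subst hv
        refine ⟨rfl, w1, hc1, -(expo w1 (inv g ++ g')), ?_⟩
        have e1 := dicm_inzz' c hE hS w w1 _ hm
        rw [dicm_app c hS] at e1
        show gEl c g * gen (cW c) w ^ expo w (inv g ++ g') =
          gEl c g' * gen (cW c) w1 ^ (-(expo w1 (inv g ++ g')))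
        have e2 : gEl c g' = gEl c g * (gen (cW c) w ^ expo w (inv g ++ g') *
            gen (cW c) w1 ^ expo w1 (inv g ++ g')) := by
          rw [← e1]; group
        rw [e2]
        group
    · show gEl c g * gen (cW c) w ^ expo w (inv g ++ g') = gEl c g'
      have e1 := dicm_inz' c hE hS w _ hm
      rw [dicm_app c hS] at e1
      rw [← e1]
      group
    · have hc' : c (.inl v') (.inr w') ≠ 0 := hok
      obtain ⟨hv, hw, hm⟩ := hm
      have hst : stO c h (some (Sum.inr (Sum.inr (g', v', w', y')))) =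
          .ln (Sum.inr ⟨(⟨(v', w'), hc'⟩ : LIdx c), QuotientGroup.mk (gEl c g')⟩ : LnEA c) := by
        unfold stO
        simp only
        rw [dif_pos hc']
      rw [hst]
      show IEA c ((gEl c g * gen (cW c) w ^ expo w (inv g ++ g'), v) : PEA c)
        (Sum.inr ⟨(⟨(v', w'), hc'⟩ : LIdx c), QuotientGroup.mk (gEl c g')⟩ : LnEA c)
      rw [dicm_I]
      refine ⟨hv, -(expo w' (inv g ++ g')), ?_⟩
      have e1 := dicm_inzz' c hE hS w w' _ hm
      rw [dicm_app c hS] at e1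
      show gEl c g * gen (cW c) w ^ expo w (inv g ++ g') =
        gEl c g' * gen (cW c) w' ^ (-(expo w' (inv g ++ g')))
      have e2 : gEl c g' = gEl c g * (gen (cW c) w ^ expo w (inv g ++ g') *
          gen (cW c) w' ^ expo w' (inv g ++ g')) := by
        rw [← e1]; group
      rw [e2]
      group
  refine ⟨⟨fun hm => ⟨_, (dicm_I c v w hc (gEl c g) _).2 ⟨rfl, _, rfl⟩, h2 hm⟩, ?_⟩, h2⟩
  rintro ⟨q, hq, hn⟩
  obtain ⟨hq2, j, hq1⟩ := (dicm_I c v w hc (gEl c g) q).1 hq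
  rcases s with _ | (⟨g', v', b', n'⟩ | ⟨g', y'⟩ | ⟨g', v', w', y'⟩)
  · exact absurd hn (by simp [stO, Near])
  · have hn' : Near (sysEA c h) q (.pt ((gEl c g', v') : PEA c)) := hn
    rw [dicm_near_pt] at hn'
    show inz c w (inv g ++ g') ∨
      (v = v' ∧ ∃ w', w' ≠ w ∧ c (.inl v) (.inr w') ≠ 0 ∧ inzz c w w' (inv g ++ g'))
    rcases hn' with h3 | ⟨h3, w1, hc1, i, h4⟩
    · left
      have h3' : q.1 = gEl c g' := h3
      refine dicm_inz c hE hS hG w _ j ?_
      rw [dicm_app c hS, ← h3', hq1]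
      group
    · right
      have h3' : q.2 = v' := h3
      have hvv : v = v' := by rw [← hq2, h3']
      have h4' : q.1 = gEl c g' * gen (cW c) w1 ^ i := h4
      refine ⟨hvv, w1, ?_, ?_, ?_⟩
      · intro hw1
        rw [hw1] at h4'
        apply hnd
        show v = v' ∧ inz c w (inv g' ++ g)
        refine ⟨hvv, dicm_inz c hE hS hG w _ (i - j) ?_⟩
        rw [dicm_app c hS]
        have e1 : gEl c g = gEl c g' * gen (cW c) w ^ i * (gen (cW c) w ^ j)⁻¹ := by
          rw [← h4', hq1]; group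
        rw [e1, zpow_sub]
        group
      · rw [hvv]; exact hc1
      · by_cases hw1 : w1 = w
        · exfalso
          rw [hw1] at h4'
          apply hnd
          show v = v' ∧ inz c w (inv g' ++ g)
          refine ⟨hvv, dicm_inz c hE hS hG w _ (i - j) ?_⟩
          rw [dicm_app c hS]
          have e1 : gEl c g = gEl c g' * gen (cW c) w ^ i * (gen (cW c) w ^ j)⁻¹ := by
            rw [← h4', hq1]; group
          rw [e1, zpow_sub]
          group
        · refine dicm_inzz c hE hS hG w w1 hw1 _ j (-i) ?_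
          rw [dicm_app c hS]
          have e1 : gEl c g' = gEl c g * gen (cW c) w ^ j * (gen (cW c) w1 ^ i)⁻¹ := by
            rw [← hq1, h4']; group
          rw [e1, zpow_neg]
          group
  · have hn' : q.1 = gEl c g' := hn
    show inz c w (inv g ++ g')
    refine dicm_inz c hE hS hG w _ j ?_
    rw [dicm_app c hS, ← hn', hq1]
    group
  · have hc' : c (.inl v') (.inr w') ≠ 0 := hok
    have hst : stO c h (some (Sum.inr (Sum.inr (g', v', w', y')))) =
        .ln (Sum.inr ⟨(⟨(v', w'), hc'⟩ : LIdx c), QuotientGroup.mk (gEl c g')⟩ : LnEA c) := by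
      unfold stO
      simp only
      rw [dif_pos hc']
    rw [hst] at hn
    have hn' : IEA c q (Sum.inr ⟨(⟨(v', w'), hc'⟩ : LIdx c),
      QuotientGroup.mk (gEl c g')⟩ : LnEA c) := hn
    rw [dicm_I] at hn'
    obtain ⟨h3, i, h4⟩ := hn'
    have hvv : v = v' := by rw [← hq2, h3]
    show v = v' ∧ w' ≠ w ∧ inzz c w w' (inv g ++ g')
    have hww : w' ≠ w := by
      intro hw1
      apply hnd
      show v = v' ∧ w = w' ∧ inz c w (inv g' ++ g)
      refine ⟨hvv, hw1.symm, dicm_inz c hE hS hG w _ (i - j) ?_⟩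
      rw [dicm_app c hS]
      rw [hw1] at h4
      have e1 : gEl c g = gEl c g' * gen (cW c) w ^ i * (gen (cW c) w ^ j)⁻¹ := by
        rw [← h4, hq1]; group
      rw [e1, zpow_sub]
      group
    refine ⟨hvv, hww, dicm_inzz c hE hS hG w w' hww _ j (-i) ?_⟩
    rw [dicm_app c hS]
    have e1 : gEl c g' = gEl c g * gen (cW c) w ^ j * (gen (cW c) w' ^ i)⁻¹ := by
      rw [← hq1, h4]; group
    rw [e1, zpow_neg]
    group

end Pool.Agent.H797R2.EA
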