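import Pool.Agent.H482R3.EA.Stm

set_option autoImplicit false

namespace Pool.Agent.H797R2.EA

open Pool.Agent.H482R3.EA

/-- the data with the two parts exchanged -/
def lxSw {V Wt : Type} (c : V ⊕ Wt → V ⊕ Wt → ℕ) : Wt ⊕ V → Wt ⊕ V → ℕ :=
  fun a b => c a.swap b.swap

theorem lx_V (hG : S_EXG) (V Wt : Type) (dV : DecidableEq V) (c : V ⊕ Wt → V ⊕ Wt → ℕ) (v : V) :
    ∃ f : EA (cV c) → ℤ, (∀ g g', f (g * g') = f g + f g') ∧
      ∀ (v' : V) (n : ℤ), f (gen (cV c) v' ^ n) = if v' = v then n else 0 := by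
  obtain ⟨-, g2, g3⟩ := hG Wt V dV (lxSw c) v
  exact ⟨exg (lxSw c) v, g2, g3⟩

theorem lx_one {G : Type} [Group G] (f : G → ℤ) (hf : ∀ g g', f (g * g') = f g + f g') :
    f 1 = 0 := by
  have := hf 1 1
  rw [mul_one] at this
  omega

theorem t_LX (h3 : S_X3) (hE : S_EX) (hG : S_EXG) : S_LX := by
  intro V Wt dV dW c hcr
  -- the index of a point on a line
  have hidx : ∀ (v : V) (w : Wt) (hc : c (.inl v) (.inr w) ≠ 0)
      (C : EA (cW c) ⧸ Subgroup.zpowers (gen (cW c) w)) (p q : PEA c),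
      IEA c p (Sum.inr ⟨(⟨(v, w), hc⟩ : LIdx c), C⟩ : LnEA c) →
      IEA c q (Sum.inr ⟨(⟨(v, w), hc⟩ : LIdx c), C⟩ : LnEA c) → p ≠ q →
      exg c w ((C.out : EA (cW c))⁻¹ * p.1) ≠ exg c w ((C.out : EA (cW c))⁻¹ * q.1) := by
    intro v w hc C p q hp hq hpq he
    obtain ⟨hp1, hp2⟩ : p.2 = v ∧ (QuotientGroup.mk p.1 :
      EA (cW c) ⧸ Subgroup.zpowers (gen (cW c) w)) = C := hp
    obtain ⟨hq1, hq2⟩ : q.2 = v ∧ (QuotientGroup.mk q.1 :
      EA (cW c) ⧸ Subgroup.zpowers (gen (cW c) w)) = C := hq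
    obtain ⟨-, g2, g3⟩ := hG V Wt dW c w
    have h1 := QuotientGroup.eq.1 (hp2.trans hq2.symm)
    obtain ⟨n, hn⟩ := Subgroup.mem_zpowers_iff.1 h1
    have h2 : q.1 = p.1 * gen (cW c) w ^ n := by rw [hn]; group
    rw [h2, ← mul_assoc, g2 _ (gen (cW c) w ^ n), g3, if_pos rfl] at he
    have hn0 : n = 0 := by omega
    rw [hn0, zpow_zero, mul_one] at h2
    exact hpq (Prod.ext h2.symm (hp1.trans hq1.symm))
  have hk : ∀ (v : V) (w : Wt), c (.inl v) (.inr w) ≠ 0 → 2 ≤ c (.inl v) (.inr w) := by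
    intro v w h
    have := hcr v w
    omega
  refine ⟨?_, ?_, ?_⟩
  · intro l p n hp hx
    rcases l with g | ⟨⟨⟨v, w⟩, hc⟩, C⟩
    · obtain ⟨f, hf, hf'⟩ := lx_V hG V Wt dV c p.2
      have h1 : (gen (cV c) p.2 ^ n : EA (cV c)) = 1 := hx
      have h2 := hf' p.2 n
      rw [h1, lx_one f hf, if_pos rfl] at h2
      exact h2.symm
    · exact (h3 _ (hk v w hc)).1 _ n hx
  · intro l p q a b hp hq hpq hx
    rcases l with g | ⟨⟨⟨v, w⟩, hc⟩, C⟩
    · have hp' : p.1 = g := hp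
      have hq' : q.1 = g := hq
      have hne : p.2 ≠ q.2 := fun h => hpq (Prod.ext (hp'.trans hq'.symm) h)
      obtain ⟨f, hf, hf'⟩ := lx_V hG V Wt dV c p.2
      obtain ⟨f2, hf2, hf2'⟩ := lx_V hG V Wt dV c q.2
      have h1 : (gen (cV c) p.2 ^ a * gen (cV c) q.2 ^ b : EA (cV c)) = 1 := hx
      have h2 : f (gen (cV c) p.2 ^ a * gen (cV c) q.2 ^ b) = 0 := by rw [h1, lx_one f hf]
      have h4 : f2 (gen (cV c) p.2 ^ a * gen (cV c) q.2 ^ b) = 0 := by rw [h1, lx_one f2 hf2]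
      rw [hf, hf', hf', if_pos rfl, if_neg hne.symm] at h2
      rw [hf2, hf2', hf2', if_pos rfl, if_neg hne] at h4
      exact ⟨by omega, by omega⟩
    · exact (h3 _ (hk v w hc)).2.1 _ _ a b (hidx v w hc C p q hp hq hpq) hx
  · intro l p q r a b d hp hq hr hpq hqr hpr hx
    rcases l with g | ⟨⟨⟨v, w⟩, hc⟩, C⟩
    · have hp' : p.1 = g := hp
      have hq' : q.1 = g := hq
      have hr' : r.1 = g := hr
      have n1 : p.2 ≠ q.2 := fun h => hpq (Prod.ext (hp'.trans hq'.symm) h)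
      have n2 : q.2 ≠ r.2 := fun h => hqr (Prod.ext (hq'.trans hr'.symm) h)
      have n3 : p.2 ≠ r.2 := fun h => hpr (Prod.ext (hp'.trans hr'.symm) h)
      obtain ⟨f, hf, hf'⟩ := lx_V hG V Wt dV c p.2
      obtain ⟨f2, hf2, hf2'⟩ := lx_V hG V Wt dV c q.2
      obtain ⟨f3, hf3, hf3'⟩ := lx_V hG V Wt dV c r.2
      have h1 : (gen (cV c) p.2 ^ a * gen (cV c) q.2 ^ b * gen (cV c) r.2 ^ d : EA (cV c)) = 1 := hx
      have h2 : f (gen (cV c) p.2 ^ a * gen (cV c) q.2 ^ b * gen (cV c) r.2 ^ d) = 0 := by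
        rw [h1, lx_one f hf]
      have h4 : f2 (gen (cV c) p.2 ^ a * gen (cV c) q.2 ^ b * gen (cV c) r.2 ^ d) = 0 := by
        rw [h1, lx_one f2 hf2]
      have h5 : f3 (gen (cV c) p.2 ^ a * gen (cV c) q.2 ^ b * gen (cV c) r.2 ^ d) = 0 := by
        rw [h1, lx_one f3 hf3]
      rw [hf, hf, hf', hf', hf', if_pos rfl, if_neg n1.symm, if_neg n3.symm] at h2
      rw [hf2, hf2, hf2', hf2', hf2', if_pos rfl, if_neg n1, if_neg n2.symm] at h4
      rw [hf3, hf3, hf3', hf3', hf3', if_pos rfl, if_neg n3, if_neg n2] at h5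
      exact ⟨by omega, by omega, by omega⟩
    · exact (h3 _ (hk v w hc)).2.2 _ _ _ a b d (hidx v w hc C p q hp hq hpq)
        (hidx v w hc C q r hq hr hqr) (hidx v w hc C p r hp hr hpr) hx

end Pool.Agent.H797R2.EA
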