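import Pool.Agent.H482R3.EA.Stm

set_option autoImplicit false

namespace Pool.Agent.H797R2.EA

open Pool.Agent.H482R3.EA

section gen
variable {S : Type}

theorem re_ev_append {G : Type} [Group G] (f : S → G) (u u' : W S) :
    ev f (u ++ u') = ev f u * ev f u' := by
  unfold ev
  rw [List.map_append, List.prod_append]

theorem re_ev_inv {G : Type} [Group G] (f : S → G) (u : W S) : ev f (inv u) = (ev f u)⁻¹ := by
  induction u with
  | nil => simp [ev, inv]
  | cons a u ih =>
    have h1 : inv (a :: u) = inv u ++ [(a.1, !a.2)] := by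
      simp [inv]
    rw [h1, re_ev_append, ih]
    obtain ⟨s, b⟩ := a
    cases b <;> simp [ev]

theorem re_ev_map {G H : Type} [Group G] [Group H] (φ : G →* H) (f : S → G) (u : W S) :
    φ (ev f u) = ev (fun s => φ (f s)) u := by
  induction u with
  | nil => simp [ev]
  | cons a u ih =>
    obtain ⟨s, b⟩ := a
    have h1 : ((s, b) :: u) = [(s, b)] ++ u := rfl
    rw [h1, re_ev_append, re_ev_append, map_mul, ih]
    cases b <;> simp [ev]

/-- a word with a given value -/
theorem re_surj (x : FreeGroup S) : ∃ u : W S, ev FreeGroup.of u = x := by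
  induction x using FreeGroup.induction_on with
  | C1 => exact ⟨[], rfl⟩
  | of s => exact ⟨[(s, true)], by simp [ev]⟩
  | inv_of s _ => exact ⟨[(s, false)], by simp [ev]⟩
  | mul x y hx hy =>
    obtain ⟨u, hu⟩ := hx
    obtain ⟨v, hv⟩ := hy
    exact ⟨u ++ v, by rw [re_ev_append, hu, hv]⟩

/-- words of relators -/
def reRel (c : S → S → ℕ) (p : S × S) : W S :=
  (List.replicate (c p.1 p.2) [(p.1, true), (p.2, true)]).flatten ++
    inv ((List.replicate (c p.1 p.2) [(p.2, true), (p.1, true)]).flatten)

theorem re_ev_rep {G : Type} [Group G] (f : S → G) (u : W S) (k : ℕ) :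
    ev f (List.replicate k u).flatten = ev f u ^ k := by
  induction k with
  | zero => simp [ev]
  | succ k ih => rw [List.replicate_succ, List.flatten_cons, re_ev_append, ih, pow_succ']

theorem re_rel (c : S → S → ℕ) (p : S × S) : ev FreeGroup.of (reRel c p) =
    (FreeGroup.of p.1 * FreeGroup.of p.2) ^ (c p.1 p.2) *
      ((FreeGroup.of p.2 * FreeGroup.of p.1) ^ (c p.1 p.2))⁻¹ := by
  unfold reRel
  rw [re_ev_append, re_ev_inv, re_ev_rep, re_ev_rep]
  simp [ev]

/-- conjugates of relators -/
def reItem (c : S → S → ℕ) (p : W S × (S × S) × Bool) : W S :=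
  p.1 ++ (if p.2.2 then reRel c p.2.1 else inv (reRel c p.2.1)) ++ inv p.1

def reFlip (p : W S × (S × S) × Bool) : W S × (S × S) × Bool := (p.1, p.2.1, !p.2.2)

theorem re_item_flip (c : S → S → ℕ) (p : W S × (S × S) × Bool) :
    ev (FreeGroup.of : S → FreeGroup S) (reItem c (reFlip p)) =
      (ev FreeGroup.of (reItem c p))⁻¹ := by
  obtain ⟨z, st, b⟩ := p
  cases b
  · simp only [reItem, reFlip, Bool.not_false, if_true, re_ev_append, re_ev_inv,
      Bool.false_eq_true, if_false]
    group
  · simp only [reItem, reFlip, Bool.not_true, if_true, re_ev_append, re_ev_inv,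
      Bool.false_eq_true, if_false]
    group

theorem re_flat_flip (c : S → S → ℕ) (L : List (W S × (S × S) × Bool)) :
    ev (FreeGroup.of : S → FreeGroup S) (((L.map reFlip).reverse).flatMap (reItem c)) =
      (ev FreeGroup.of (L.flatMap (reItem c)))⁻¹ := by
  induction L with
  | nil => simp [ev]
  | cons p L ih =>
    rw [List.map_cons, List.reverse_cons, List.flatMap_append, re_ev_append, ih,
      List.flatMap_cons, List.flatMap_nil, List.append_nil, re_item_flip, List.flatMap_cons,
      re_ev_append, mul_inv_rev]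

theorem re_item_mem (c : S → S → ℕ) (p : W S × (S × S) × Bool) :
    ev (FreeGroup.of : S → FreeGroup S) (reItem c p) ∈ Subgroup.normalClosure (rels c) := by
  obtain ⟨z, st, b⟩ := p
  have hr : ev (FreeGroup.of : S → FreeGroup S) (reRel c st) ∈
      Subgroup.normalClosure (rels c) := by
    rw [re_rel]
    by_cases h : st.1 = st.2
    · rw [h, mul_inv_cancel]
      exact one_mem _
    · by_cases h0 : c st.1 st.2 = 0
      · rw [h0, pow_zero, pow_zero, inv_one, mul_one]
        exact one_mem _
      · exact Subgroup.subset_normalClosure ⟨st.1, st.2, h, h0, rfl⟩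
  have hconj : ∀ x ∈ Subgroup.normalClosure (rels c), ev (FreeGroup.of : S → FreeGroup S) z * x *
      (ev (FreeGroup.of : S → FreeGroup S) z)⁻¹ ∈ Subgroup.normalClosure (rels c) := fun x hx =>
    (Subgroup.normalClosure_normal (s := rels c)).conj_mem x hx _
  cases b
  · simp only [reItem, re_ev_append, re_ev_inv, Bool.false_eq_true, if_false]
    exact hconj _ (inv_mem hr)
  · simp only [reItem, re_ev_append, re_ev_inv, if_true]
    exact hconj _ hr

theorem re_flat_mem (c : S → S → ℕ) (L : List (W S × (S × S) × Bool)) :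
    ev (FreeGroup.of : S → FreeGroup S) (L.flatMap (reItem c)) ∈
      Subgroup.normalClosure (rels c) := by
  induction L with
  | nil => simpa [ev] using one_mem _
  | cons p L ih =>
    rw [List.flatMap_cons, re_ev_append]
    exact mul_mem (re_item_mem c p) ih

theorem re_mem_flat (c : S → S → ℕ) (x : FreeGroup S)
    (hx : x ∈ Subgroup.normalClosure (rels c)) :
    ∃ L : List (W S × (S × S) × Bool), ev FreeGroup.of (L.flatMap (reItem c)) = x := by
  unfold Subgroup.normalClosure at hx
  induction hx using Subgroup.closure_induction with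
  | mem x hx =>
    obtain ⟨r, ⟨s, t, -, -, hr⟩, hconj⟩ := Group.mem_conjugatesOfSet_iff.1 hx
    obtain ⟨g, hg⟩ := isConj_iff.1 hconj
    obtain ⟨z, hz⟩ := re_surj g
    refine ⟨[(z, (s, t), true)], ?_⟩
    rw [List.flatMap_cons, List.flatMap_nil, List.append_nil]
    simp only [reItem, if_true, re_ev_append, re_ev_inv]
    rw [re_rel, hz, ← hg, hr]
  | one => exact ⟨[], by simp [ev]⟩
  | mul x y _ _ hx hy =>
    obtain ⟨L, hL⟩ := hx
    obtain ⟨L', hL'⟩ := hy
    exact ⟨L ++ L', by rw [List.flatMap_append, re_ev_append, hL, hL']⟩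
  | inv x _ hx =>
    obtain ⟨L, hL⟩ := hx
    exact ⟨(L.map reFlip).reverse, by rw [re_flat_flip, hL]⟩

theorem re_triv (c : S → S → ℕ) (u : W S) : Triv c u ↔
    ∃ L : List (W S × (S × S) × Bool),
      ev (FreeGroup.of : S → FreeGroup S) (u ++ inv (L.flatMap (reItem c))) = 1 := by
  have h1 : ev (gen c) u = PresentedGroup.mk (rels c) (ev FreeGroup.of u) := by
    rw [re_ev_map]
    rfl
  have h2 : Triv c u ↔ ev (FreeGroup.of : S → FreeGroup S) u ∈
      Subgroup.normalClosure (rels c) := by
    unfold Triv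
    rw [h1]
    exact QuotientGroup.eq_one_iff _
  rw [h2]
  constructor
  · intro h
    obtain ⟨L, hL⟩ := re_mem_flat c _ h
    exact ⟨L, by rw [re_ev_append, re_ev_inv, hL, mul_inv_cancel]⟩
  · rintro ⟨L, hL⟩
    rw [re_ev_append, re_ev_inv, mul_inv_eq_one] at hL
    rw [hL]
    exact re_flat_mem c L

end gen

section comp
variable {S : Type} [Primcodable S]

theorem re_prim_inv : Primrec (fun u : W S => inv u) := by
  unfold inv
  refine Primrec.list_reverse.comp (Primrec.list_map Primrec.id ?_)
  exact Primrec.pair (Primrec.fst.comp Primrec.snd) (Primrec.not.comp (Primrec.snd.comp Primrec.snd))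

theorem re_prim_item [Finite S] (c : S → S → ℕ) : Primrec (reItem c) := by
  have h1 : Primrec (fun p : W S × (S × S) × Bool => reRel c p.2.1) :=
    (Primrec.dom_finite (reRel c)).comp (Primrec.fst.comp Primrec.snd)
  have h2 : Primrec (fun p : W S × (S × S) × Bool => inv (reRel c p.2.1)) :=
    re_prim_inv.comp h1
  have h3 : Primrec (fun p : W S × (S × S) × Bool =>
      cond p.2.2 (reRel c p.2.1) (inv (reRel c p.2.1))) :=
    Primrec.cond (Primrec.snd.comp Primrec.snd) h1 h2
  have h4 : Primrec (fun p : W S × (S × S) × Bool =>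
      p.1 ++ cond p.2.2 (reRel c p.2.1) (inv (reRel c p.2.1)) ++ inv p.1) :=
    Primrec.list_append.comp (Primrec.list_append.comp Primrec.fst h3)
      (re_prim_inv.comp Primrec.fst)
  refine h4.of_eq fun p => ?_
  unfold reItem
  cases p.2.2 <;> simp

end comp

theorem t_RE (hF : S_FW) (hE : S_REX) (hC : S_REC) : S_RE := by
  intro a b c
  have hp : Primrec (fun p : W (Fin a ⊕ Fin b) ×
      List (W (Fin a ⊕ Fin b) × ((Fin a ⊕ Fin b) × (Fin a ⊕ Fin b)) × Bool) =>
      p.1 ++ inv (p.2.flatMap (reItem c))) := by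
    refine Primrec.list_append.comp Primrec.fst (re_prim_inv.comp ?_)
    exact Primrec.list_flatMap Primrec.snd ((re_prim_item c).comp Primrec.snd).to₂
  have hFW := (hF (Fin a ⊕ Fin b) inferInstance inferInstance).to_re
  have hre := (hC (W (Fin a ⊕ Fin b) ×
      List (W (Fin a ⊕ Fin b) × ((Fin a ⊕ Fin b) × (Fin a ⊕ Fin b)) × Bool))
      (W (Fin a ⊕ Fin b)) inferInstance inferInstance).2 _ _ hFW hp.to_comp
  have hre2 := hE (W (Fin a ⊕ Fin b))
    (List (W (Fin a ⊕ Fin b) × ((Fin a ⊕ Fin b) × (Fin a ⊕ Fin b)) × Bool))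
    inferInstance inferInstance _ hre
  exact hre2.of_eq fun u => (re_triv c u).symm

end Pool.Agent.H797R2.EA
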